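import Pool.Agent.X254.MC.Counter2
import Pool.Agent.X254.MC.Generic3

set_option autoImplicit false

/-!
# Inertias of full-rank completions and bicolorings of the complement

Q1 is false as stated and true for interior (so for generic) partial matrices.

Part 1. Let `G` on `{0, ..., 5}` have all loops and all edges except the four edges `{0, l}`,
`l = 1, 2, 3, 4`. The complement is a star with four leaves and an isolated vertex, so `G` is
full-rank typical. Let `M` have the entries `M_05 = 1`, `M_11 = M_22 = 1`, `M_33 = M_44 = -1` and all
other prescribed entries `0`. Every completion is congruent to the one with zeros, so it is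
nonsingular with inertia `(3, 3, 0)`, but a proper bicoloring of the complement has `1`, `2`, `4` or
`5` red vertices.

Part 2. If `M` is in the interior of the set of partial matrices which are minimally completable to
full rank, then the inertia of its completions is given by a proper bicoloring: for an edge `uv` of
the complement the diagonal entries of the inverse `W` of a completion at `u` and `v` have opposite
signs, and `W` is positive definite on the coordinates of the nonisolated vertices with `W_uu > 0` and
negative definite on those with `W_uu < 0` (induction, with the same argument on Schur complements).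
-/

namespace Pool.Agent.Results.MP_97e4cf_co.SpecialAndGeneric

open Pool.Agent.X254.MC Finset

theorem result :
    (∃ (G : Set (Sym2 (Fin 6))) (M : G → ℝ), FullRankTypical G ∧ MinRank G M 6 ∧
      (∀ A, IsCompletion G M A → HasInertia A 3 3) ∧
      ¬ ∃ R : Finset (Fin 6), R.card = 3 ∧ (univ \ R).card = 3 ∧ Proper G R) ∧
    (∀ (N : ℕ) (G : Set (Sym2 (Fin N))) (M : G → ℝ),
      M ∈ interior {M : G → ℝ | MinRank G M N} →
      ∀ A : Matrix (Fin N) (Fin N) ℝ, IsCompletion G M A → ∀ m n : ℕ, HasInertia A m n →
      ∃ R : Finset (Fin N), R.card = m ∧ (univ \ R).card = n ∧ Proper G R) := by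
  refine ⟨⟨G6, M6, G6_typical, M6_minRank, M6_inertia, ?_⟩, ?_⟩
  · rintro ⟨R, h1, _, h3⟩
    exact G6_no_coloring R h3 h1
  · intro N G M hM A hA m n h
    have hM' : M ∈ interior {M : G → ℝ | MinRank G M (Fintype.card (Fin N))} := by
      rw [Fintype.card_fin]; exact hM
    exact interior_result G M hM' A hA m n h

end Pool.Agent.Results.MP_97e4cf_co.SpecialAndGeneric
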